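import Pool.Agent.Zk24.PR.B

set_option autoImplicit false

/-!
# Centres for the exceptional set of the intervals `(x, x + √x)`
-/

namespace Pool.Agent.Zk38.Int

open Finset Filter Topology

/-- From coverings by few intervals of length `2 √X` to one set of centres. -/
theorem centers {E : Set ℝ} {C s : ℝ} (hC : 0 < C) (hs : 0 ≤ s)
    (hcov : ∀ X : ℝ, 1 ≤ X → ∃ T : Finset ℝ, (T.card : ℝ) ≤ C * X ^ s ∧
      E ∩ Set.Icc 1 X ⊆ ⋃ t ∈ T, Set.Icc (t - √X) (t + √X)) :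
    ∃ S : Set ℝ, (∀ ε : ℝ, 0 < ε → ∃ K : ℝ, ∀ X : ℝ, 1 ≤ X → {t | t ∈ S ∧ t ≤ X}.Finite ∧
        ({t | t ∈ S ∧ t ≤ X}.ncard : ℝ) ≤ K * X ^ (s + ε)) ∧
      ∀ x ∈ E, 1 ≤ x → ∃ t ∈ S, |x - t| ≤ 2 * √x := by
  classical
  choose! T hT1 hT2 using hcov
  set S : Set ℝ := {t | -1 ≤ t ∧ ∃ j : ℕ, t ∈ T (2 ^ j) ∧ (2 : ℝ) ^ j ≤ 8 * (|t| + 8)} with hS
  have hpow : ∀ j : ℕ, (1 : ℝ) ≤ 2 ^ j := fun j => one_le_pow₀ (by norm_num)
  refine ⟨S, ?_, ?_⟩
  · intro ε hε
    refine ⟨C * (2 / ε + 1) * 72 ^ (s + ε), fun X hX => ?_⟩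
    have hX0 : 0 < X := by linarith
    set J : ℕ := ⌊2 * Real.log (72 * X)⌋₊ with hJ
    have hl0 : 0 ≤ Real.log (72 * X) := Real.log_nonneg (by linarith)
    have hsub : {t | t ∈ S ∧ t ≤ X} ⊆ (((range (J + 1)).filter (fun j => (2 : ℝ) ^ j ≤ 72 * X)).biUnion
        (fun j => T (2 ^ j)) : Finset ℝ) := by
      rintro t ⟨⟨ht1, j, hj1, hj2⟩, htX⟩
      have h1 : |t| ≤ X := by
        rw [abs_le]
        exact ⟨by linarith, htX⟩
      have h2 : (2 : ℝ) ^ j ≤ 72 * X := by linarith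
      rw [Finset.mem_coe, mem_biUnion]
      refine ⟨j, mem_filter.2 ⟨mem_range.2 ?_, h2⟩, hj1⟩
      have h3 := Real.log_le_log (by positivity) h2
      rw [Real.log_pow] at h3
      have h4 := Real.log_two_gt_d9
      have h5 : (j : ℝ) ≤ 2 * Real.log (72 * X) := by
        have : (0 : ℝ) ≤ j := Nat.cast_nonneg j
        nlinarith
      have h6 : j ≤ J := Nat.le_floor h5
      omega
    refine ⟨(finite_toSet _).subset hsub, ?_⟩
    have hc := Set.ncard_le_ncard hsub (finite_toSet _)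
    rw [Set.ncard_coe_finset] at hc
    have hc2 := hc.trans card_biUnion_le
    have hc3 : ({t | t ∈ S ∧ t ≤ X}.ncard : ℝ) ≤
        ∑ j ∈ (range (J + 1)).filter (fun j => (2 : ℝ) ^ j ≤ 72 * X), ((T (2 ^ j)).card : ℝ) := by exact_mod_cast hc2
    have hc4 : ∑ j ∈ (range (J + 1)).filter (fun j => (2 : ℝ) ^ j ≤ 72 * X), ((T (2 ^ j)).card : ℝ) ≤
        ∑ j ∈ (range (J + 1)).filter (fun j => (2 : ℝ) ^ j ≤ 72 * X), C * (72 * X) ^ s := by
      apply sum_le_sum
      intro j hj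
      refine (hT1 (2 ^ j) (hpow j)).trans ?_
      apply mul_le_mul_of_nonneg_left _ hC.le
      exact Real.rpow_le_rpow (by positivity) (mem_filter.1 hj).2 hs
    have hc5 : ∑ j ∈ (range (J + 1)).filter (fun j => (2 : ℝ) ^ j ≤ 72 * X), C * (72 * X) ^ s ≤
        (J + 1) * (C * (72 * X) ^ s) := by
      rw [sum_const, nsmul_eq_mul]
      apply mul_le_mul_of_nonneg_right _ (by positivity)
      have := (card_filter_le (range (J + 1)) (fun j => (2 : ℝ) ^ j ≤ 72 * X))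
      rw [card_range] at this
      exact_mod_cast this
    have h7 : (J : ℝ) + 1 ≤ (2 / ε + 1) * (72 * X) ^ ε := by
      have h8 : (J : ℝ) ≤ 2 * Real.log (72 * X) := Nat.floor_le (by positivity)
      have h9 := Real.log_le_rpow_div (x := 72 * X) (by positivity) hε
      have h10 : 1 ≤ (72 * X) ^ ε := Real.one_le_rpow (by linarith) hε.le
      have h11 : 2 * ((72 * X) ^ ε / ε) = 2 / ε * (72 * X) ^ ε := by ring
      nlinarith
    calc ({t | t ∈ S ∧ t ≤ X}.ncard : ℝ) ≤ (J + 1) * (C * (72 * X) ^ s) := hc3.trans (hc4.trans hc5)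
      _ ≤ ((2 / ε + 1) * (72 * X) ^ ε) * (C * (72 * X) ^ s) := mul_le_mul_of_nonneg_right h7 (by positivity)
      _ = C * (2 / ε + 1) * ((72 * X) ^ s * (72 * X) ^ ε) := by ring
      _ = C * (2 / ε + 1) * (72 * X) ^ (s + ε) := by rw [← Real.rpow_add (by positivity)]
      _ = C * (2 / ε + 1) * 72 ^ (s + ε) * X ^ (s + ε) := by
          rw [Real.mul_rpow (by norm_num) hX0.le]
          ring
  · intro x hx hx1
    obtain ⟨j, hj1, hj2⟩ : ∃ j : ℕ, x ≤ 2 ^ j ∧ (2 : ℝ) ^ j ≤ 2 * x := by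
      have hex : ∃ j : ℕ, x ≤ 2 ^ j := by
        obtain ⟨n, hn⟩ := pow_unbounded_of_one_lt x (show (1 : ℝ) < 2 by norm_num)
        exact ⟨n, hn.le⟩
      refine ⟨Nat.find hex, Nat.find_spec hex, ?_⟩
      rcases Nat.eq_zero_or_pos (Nat.find hex) with h0 | h0
      · rw [h0, pow_zero]; linarith
      · have h1 := Nat.find_min hex (m := Nat.find hex - 1) (by omega)
        push Not at h1
        have e : (2 : ℝ) ^ (Nat.find hex) = 2 * 2 ^ (Nat.find hex - 1) := by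
          rw [← pow_succ']
          congr 1
          omega
        rw [e]
        linarith
    have h1 := hT2 (2 ^ j) (hpow j) ⟨hx, hx1, hj1⟩
    rw [Set.mem_iUnion₂] at h1
    obtain ⟨t, ht, h2, h3⟩ := h1
    have h4 : √((2 : ℝ) ^ j) ≤ 2 * √x := by
      have : √((2 : ℝ) ^ j) ≤ √(4 * x) := Real.sqrt_le_sqrt (by linarith)
      rwa [Real.sqrt_mul (by norm_num), show (4 : ℝ) = 2 ^ 2 by norm_num, Real.sqrt_sq (by norm_num)] at this
    have h5 : |x - t| ≤ 2 * √x := by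
      rw [abs_le]
      constructor <;> linarith
    have h0 : -1 ≤ t := by
      have := (abs_le.1 h5).2
      have h6 : √x * √x = x := Real.mul_self_sqrt (by linarith)
      nlinarith [sq_nonneg (√x - 1)]
    refine ⟨t, ⟨h0, j, ht, ?_⟩, h5⟩
    have h6 : √x * √x = x := Real.mul_self_sqrt (by linarith)
    have h7 : x - 2 * √x ≤ |t| := by
      have := (abs_le.1 h5).2
      have := le_abs_self t
      linarith
    have h8 : 0 ≤ √x := Real.sqrt_nonneg x
    nlinarith [sq_nonneg (√x - 4)]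

end Pool.Agent.Zk38.Int
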