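import Pool.Agent.Zk38.Int.A
import Pool.Agent.R482.ST.Star

set_option autoImplicit false

/-!
# The exceptional set of the intervals `(x, x + √x)` and starshaped functions
-/

namespace Pool.Agent.Zk38.Int

open Finset Filter Topology
open Pool.Agent.R482.ST (Starshaped Conv windows large)

/-- the centres of a set `E` and their number -/
def Centred (E S : Set ℝ) (s : ℝ) : Prop :=
  (∀ ε : ℝ, 0 < ε → ∃ K : ℝ, ∀ X : ℝ, 1 ≤ X → {t | t ∈ S ∧ t ≤ X}.Finite ∧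
    ({t | t ∈ S ∧ t ≤ X}.ncard : ℝ) ≤ K * X ^ (s + ε)) ∧ ∀ x ∈ E, 1 ≤ x ∧ ∃ t ∈ S, |x - t| ≤ 2 * √x

/-- near starshaped functions -/
theorem avoid_star {E S : Set ℝ} {s : ℝ} (hs : 0 ≤ s) (hE : Centred E S s) {f : ℕ → ℝ → ℝ} {a τ θ : ℝ}
    (hf : Starshaped a f) (hτ : 0 ≤ τ) (hv : Conv a f τ) (hθ : 1 / 2 ≤ θ) (hθ1 : θ < 1) :
    ∃ F : Set ℝ, dimH F ≤ ENNReal.ofReal ((s + τ) / (1 - θ)) ∧ ∀ α : ℝ, a < α → α ∉ F → ∀ C₀ : ℝ,
      ∃ n₀ : ℕ, ∀ n : ℕ, n₀ ≤ n → ∀ x : ℝ, |x - f n α| ≤ C₀ * (f n α) ^ θ → 1 ≤ x ∧ x ∉ E := by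
  obtain ⟨F, hF, h⟩ := windows S (fun t => t) hf hτ hv hs hθ1 hE.1
  refine ⟨F, hF, fun α hα hαF C₀ => ?_⟩
  obtain ⟨n₀, hn₀⟩ := h α hα hαF (3 * |C₀| + 2)
  have hpos : ∀ n, 0 < f n α := fun n => (hf.2 n α α hα le_rfl).1
  obtain ⟨n₁, hn₁⟩ := eventually_atTop.1 ((large hpos (t := τ + 1) (by linarith) (hv α hα (τ + 1) (by linarith)) 1).and
    (((tendsto_rpow_atTop (show (0 : ℝ) < 1 - θ by linarith)).comp (tendsto_atTop.2
      (fun M => large hpos (t := τ + 1) (by linarith) (hv α hα (τ + 1) (by linarith)) M))).eventually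
      (eventually_ge_atTop (|C₀| + 1))))
  refine ⟨max n₀ n₁, fun n hn x hx => ?_⟩
  have h1 := hn₀ n ((le_max_left _ _).trans hn)
  obtain ⟨h2, h2'⟩ := hn₁ n ((le_max_right _ _).trans hn)
  simp only [Function.comp] at h2'
  set u := f n α with hu
  have hC : C₀ ≤ |C₀| := le_abs_self _
  have hu0 : 0 < u := by linarith
  have huθ : 0 < u ^ θ := by positivity
  have huθ1 : u ^ θ ≤ u := by
    calc u ^ θ ≤ u ^ (1 : ℝ) := Real.rpow_le_rpow_of_exponent_le h2 hθ1.le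
      _ = u := Real.rpow_one u
  have hsq : √u ≤ u ^ θ := by
    rw [Real.sqrt_eq_rpow]
    exact Real.rpow_le_rpow_of_exponent_le h2 hθ
  have hu2 : (|C₀| + 1) * u ^ θ ≤ u := by
    have e : u = u ^ (1 - θ) * u ^ θ := by
      rw [← Real.rpow_add hu0]
      rw [show 1 - θ + θ = 1 by ring, Real.rpow_one]
    nlinarith
  have hx1 := abs_le.1 hx
  have hC2 : C₀ * u ^ θ ≤ |C₀| * u := mul_le_mul hC huθ1 huθ.le (abs_nonneg _)
  have hC3 : C₀ * u ^ θ ≤ |C₀| * u ^ θ := mul_le_mul_of_nonneg_right hC huθ.le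
  have hxu : x ≤ (1 + |C₀|) * u := by linarith
  have hx1' : 1 ≤ x := by
    have h3 : 1 ≤ u ^ θ := Real.one_le_rpow h2 (by linarith)
    linarith
  refine ⟨hx1', fun hxE => ?_⟩
  obtain ⟨-, t, ht, htx⟩ := hE.2 x hxE
  have h3 : √x ≤ (1 + |C₀|) * u ^ θ := by
    calc √x ≤ √((1 + |C₀|) ^ 2 * u) := by
          apply Real.sqrt_le_sqrt
          have : 0 ≤ |C₀| := abs_nonneg _
          nlinarith [mul_nonneg this hu0.le]
      _ = (1 + |C₀|) * √u := by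
          rw [Real.sqrt_mul (by positivity), Real.sqrt_sq (by positivity)]
      _ ≤ _ := mul_le_mul_of_nonneg_left hsq (by positivity)
  have h4 := h1 t ht
  have h5 : |t - u| ≤ |x - u| + |x - t| := by
    have : t - u = (x - u) - (x - t) := by ring
    rw [this]
    exact abs_sub _ _
  have h6 : |x - u| ≤ |C₀| * u ^ θ := hx.trans (mul_le_mul_of_nonneg_right hC huθ.le)
  linarith

end Pool.Agent.Zk38.Int
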