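import Pool.Agent.Zk38.Int.B

set_option autoImplicit false

/-!
# The exceptional set and its centres
-/

namespace Pool.Agent.Zk38.Int

open Finset Filter Topology

/-- the exceptional set with its properties and its centres -/
theorem main_set : ∃ c δ : ℝ, 0 < c ∧ 0 < δ ∧ δ ≤ 1 / 10 ∧ ∃ E S : Set ℝ, Centred E S (0.306 - δ) ∧
    (∀ x : ℝ, 1 ≤ x → x ∉ E → ∀ a b : ℝ, x ≤ a → b ≤ x + √x → x ^ (1 / 2 - δ) ≤ b - a →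
      c * (b - a) / Real.log x ≤ ({p : ℕ | p.Prime ∧ a < p ∧ (p : ℝ) < b}.ncard : ℝ)) ∧
    ∀ (k : ℕ) (ε : ℝ), 0 < ε → ∃ (B : ℕ) (x₁ : ℝ), ∀ x : ℝ, x₁ ≤ x → x ∉ E →
      ∀ a b : ℝ, x ≤ a → b ≤ x + √x → x ^ (1 / 2 - δ) ≤ b - a → ∀ U : Finset ℕ,
        (∀ p ∈ U, p.Prime ∧ a < p ∧ (p : ℝ) < b) →
        ε * ({p : ℕ | p.Prime ∧ a < p ∧ (p : ℝ) < b}.ncard : ℝ) ≤ U.card →
        ∃ q d : ℕ, 1 ≤ d ∧ (d : ℝ) ≤ Real.log x ^ B ∧ ∀ j < k, q + j * d ∈ U := by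
  obtain ⟨c, δ, C, hc, hδ, hC, E, hcov, -, hE1, hE2⟩ := Pool.Agent.Zk24.PR.main
  set δ' : ℝ := min δ (1 / 10) with hδ'
  have hδ1 : δ' ≤ δ := min_le_left _ _
  have hδ2 : δ' ≤ 1 / 10 := min_le_right _ _
  have hδ0 : 0 < δ' := lt_min hδ (by norm_num)
  have hpow : ∀ x : ℝ, 1 ≤ x → x ^ (1 / 2 - δ) ≤ x ^ (1 / 2 - δ') := fun x hx =>
    Real.rpow_le_rpow_of_exponent_le hx (by linarith)
  obtain ⟨S, hS1, hS2⟩ := centers (E := E) (s := 0.306 - δ') hC (by linarith) (by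
    intro X hX
    obtain ⟨T, h1, h2⟩ := hcov X hX
    refine ⟨T, h1.trans ?_, h2⟩
    exact mul_le_mul_of_nonneg_left (Real.rpow_le_rpow_of_exponent_le hX (by linarith)) hC.le)
  refine ⟨c, δ', hc, hδ0, hδ2, {x | x ∈ E ∧ 1 ≤ x}, S, ⟨hS1, fun x hx => ⟨hx.2, hS2 x hx.1 hx.2⟩⟩, ?_, ?_⟩
  · intro x hx hxE a b h1 h2 h3
    exact hE1 x hx (fun h => hxE ⟨h, hx⟩) a b h1 h2 ((hpow x hx).trans h3)
  · intro k ε hε
    obtain ⟨B, x₁, h⟩ := hE2 k ε hε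
    refine ⟨B, max x₁ 1, fun x hx hxE a b h1 h2 h3 => ?_⟩
    have hx1 : 1 ≤ x := (le_max_right _ _).trans hx
    exact h x ((le_max_left _ _).trans hx) (fun h => hxE ⟨h, hx1⟩) a b h1 h2 ((hpow x hx1).trans h3)

end Pool.Agent.Zk38.Int
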