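import Pool.Agent.Zk38.Int.C
import Pool.Agent.N733.TG.K

set_option autoImplicit false

/-!
# Windows around the values of expanding functions: from centres to all real numbers
-/

namespace Pool.Agent.Zk38.Int

open Finset Filter Topology
open Pool.Agent.N733.TG (Expanding)

/-- If `v ^ κ'` windows around `G v` contain no centre (and no small integer), the `v ^ κ` windows avoid `E`. -/
theorem lift {E S : Set ℝ} {s : ℝ} (hs : 0 ≤ s) (hE : Centred E S s) {G : ℕ → ℝ} {d : ℝ} (hG : Expanding G d)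
    {κ κ' : ℝ} (hκ : d / 2 ≤ κ) (hκκ' : κ < κ') (hκ1 : κ' < 1) :
    ∃ S' : Set ℝ, (∀ ε : ℝ, 0 < ε → ∃ K : ℝ, ∀ X : ℝ, 1 ≤ X → {t | t ∈ S' ∧ t ≤ X}.Finite ∧
        ({t | t ∈ S' ∧ t ≤ X}.ncard : ℝ) ≤ K * X ^ (s + ε)) ∧
      ∀ v : ℕ, 1 ≤ v → (∀ t ∈ S', ¬ |t - G v| ≤ (v : ℝ) ^ κ') →
        ∀ x : ℝ, |x - G v| ≤ (v : ℝ) ^ κ → 1 ≤ x ∧ x ∉ E := by
  have hstep := hG.step
  obtain ⟨hd, -, ⟨C, hC⟩⟩ := hG
  obtain ⟨a, ha, hstep⟩ := hstep
  have hlow : ∀ v : ℕ, 1 ≤ v → G 1 + a * ((v : ℝ) - 1) ≤ G v := by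
    intro v hv
    have := Pool.Agent.N733.TG.step_sum hstep le_rfl hv
    rw [Nat.cast_sub hv, Nat.cast_one] at this
    linarith
  have hκ0 : 0 < κ := by linarith
  -- thresholds
  have hev : ∀ᶠ v : ℕ in atTop, (v : ℝ) ^ κ + 2 * ((|C| + 1) * (v : ℝ) ^ κ) ≤ (v : ℝ) ^ κ' ∧
      (v : ℝ) ^ κ + 1 ≤ G v := by
    have h1 : Tendsto (fun v : ℕ => (v : ℝ) ^ (κ' - κ)) atTop atTop :=
      (tendsto_rpow_atTop (by linarith)).comp tendsto_natCast_atTop_atTop
    have h2 : Tendsto (fun v : ℕ => (v : ℝ) ^ (1 - κ)) atTop atTop :=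
      (tendsto_rpow_atTop (by linarith)).comp tendsto_natCast_atTop_atTop
    filter_upwards [h1.eventually (eventually_ge_atTop (2 * |C| + 3)),
      h2.eventually (eventually_ge_atTop ((2 + |G 1| + a) / a)), eventually_ge_atTop 1] with v hv hv2 hv1
    have hv1' : (1 : ℝ) ≤ v := by exact_mod_cast hv1
    have e : (v : ℝ) ^ κ' = (v : ℝ) ^ (κ' - κ) * (v : ℝ) ^ κ := by
      rw [← Real.rpow_add (by linarith)]
      congr 1
      ring
    have e2 : (v : ℝ) = (v : ℝ) ^ (1 - κ) * (v : ℝ) ^ κ := by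
      rw [← Real.rpow_add (by linarith), show 1 - κ + κ = 1 by ring, Real.rpow_one]
    have h3 : 1 ≤ (v : ℝ) ^ κ := Real.one_le_rpow hv1' hκ0.le
    constructor
    · rw [e]
      nlinarith
    · have h4 := hlow v hv1
      have h5 := neg_abs_le (G 1)
      rw [div_le_iff₀ ha] at hv2
      have h6 : (2 + |G 1| + a) * (v : ℝ) ^ κ ≤ a * v := by
        calc (2 + |G 1| + a) * (v : ℝ) ^ κ ≤ ((v : ℝ) ^ (1 - κ) * a) * (v : ℝ) ^ κ :=
              mul_le_mul_of_nonneg_right hv2 (by linarith)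
          _ = a * ((v : ℝ) ^ (1 - κ) * (v : ℝ) ^ κ) := by ring
          _ = a * v := by rw [← e2]
      have h7 : 0 ≤ |G 1| := abs_nonneg _
      nlinarith
  obtain ⟨v₀, hv₀⟩ := eventually_atTop.1 hev
  -- the integers up to `M`
  obtain ⟨M, hM⟩ : ∃ M : ℕ, ∀ v ∈ Icc 1 (v₀ + 1), |G v| + 1 ≤ M := by
    obtain ⟨M, h⟩ := exists_nat_ge (∑ v ∈ Icc 1 (v₀ + 1), |G v| + 1)
    refine ⟨M, fun v hv => ?_⟩
    have h1 := single_le_sum (f := fun v => |G v|) (fun _ _ => abs_nonneg _) hv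
    linarith
  set S' : Set ℝ := {t | t ∈ S ∨ ∃ n : ℤ, n ∈ Icc (-(M : ℤ)) M ∧ t = n} with hS'
  refine ⟨S', ?_, ?_⟩
  · intro ε hε
    obtain ⟨K, hK⟩ := hE.1 ε hε
    set J : Finset ℝ := (Icc (-(M : ℤ)) M).image (fun n : ℤ => (n : ℝ)) with hJ
    refine ⟨K + J.card, fun X hX => ?_⟩
    obtain ⟨h1, h2⟩ := hK X hX
    have hsub : {t | t ∈ S' ∧ t ≤ X} ⊆ {t | t ∈ S ∧ t ≤ X} ∪ (J : Set ℝ) := by
      rintro t ⟨ht | ⟨n, hn, hn'⟩, htX⟩
      · exact Or.inl ⟨ht, htX⟩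
      · right
        rw [hJ, coe_image]
        exact ⟨n, hn, hn'.symm⟩
    have hfin : ({t | t ∈ S ∧ t ≤ X} ∪ (J : Set ℝ)).Finite := h1.union (finite_toSet J)
    refine ⟨hfin.subset hsub, ?_⟩
    have h3 := (Set.ncard_le_ncard hsub hfin).trans (Set.ncard_union_le _ _)
    rw [Set.ncard_coe_finset] at h3
    have h4 : ({t | t ∈ S' ∧ t ≤ X}.ncard : ℝ) ≤ ({t | t ∈ S ∧ t ≤ X}.ncard : ℝ) + J.card := by exact_mod_cast h3
    have h5 : 1 ≤ X ^ (s + ε) := Real.one_le_rpow hX (by linarith)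
    have h6 : (0 : ℝ) ≤ J.card := Nat.cast_nonneg _
    nlinarith
  · intro v hv hav x hx
    have hv1 : (1 : ℝ) ≤ v := by exact_mod_cast hv
    have hvv : v₀ ≤ v := by
      by_contra hcon
      have h1 := hM v (mem_Icc.2 ⟨hv, by omega⟩)
      apply hav (⌊G v⌋ : ℤ) (Or.inr ⟨⌊G v⌋, ?_, rfl⟩)
      · have h2 := Int.floor_le (G v)
        have h3 := Int.lt_floor_add_one (G v)
        have h4 : 1 ≤ (v : ℝ) ^ κ' := Real.one_le_rpow hv1 (by linarith)
        rw [abs_le]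
        constructor <;> linarith
      · have h2 := Int.floor_le (G v)
        have h3 := Int.lt_floor_add_one (G v)
        have h5 := le_abs_self (G v)
        have h6 := neg_abs_le (G v)
        rw [mem_Icc]
        constructor
        · have : (-(M : ℝ)) ≤ ((⌊G v⌋ : ℤ) : ℝ) := by linarith
          exact_mod_cast this
        · have : ((⌊G v⌋ : ℤ) : ℝ) ≤ (M : ℝ) := by linarith
          exact_mod_cast this
    obtain ⟨h1, h2⟩ := hv₀ v hvv
    have hx1 := abs_le.1 hx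
    have hx0 : 1 ≤ x := by linarith
    refine ⟨hx0, fun hxE => ?_⟩
    obtain ⟨-, t, ht, htx⟩ := hE.2 x hxE
    have hvd : (v : ℝ) ^ κ ≤ (v : ℝ) ^ d := Real.rpow_le_rpow_of_exponent_le hv1 (by linarith)
    have hGd := hC v hv
    have hd0 : 0 < (v : ℝ) ^ d := by positivity
    have hxd : x ≤ (|C| + 1) ^ 2 * (v : ℝ) ^ d := by
      have h3 : C * (v : ℝ) ^ d ≤ |C| * (v : ℝ) ^ d := mul_le_mul_of_nonneg_right (le_abs_self C) hd0.le
      have h4 : 0 ≤ |C| := abs_nonneg C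
      have h5 : x ≤ (|C| + 1) * (v : ℝ) ^ d := by linarith
      refine h5.trans (mul_le_mul_of_nonneg_right ?_ hd0.le)
      nlinarith
    have hsq : √x ≤ (|C| + 1) * (v : ℝ) ^ κ := by
      calc √x ≤ √((|C| + 1) ^ 2 * (v : ℝ) ^ d) := Real.sqrt_le_sqrt hxd
        _ = (|C| + 1) * (v : ℝ) ^ (d / 2) := by
            rw [Real.sqrt_mul (by positivity), Real.sqrt_sq (by positivity), Real.sqrt_eq_rpow,
              ← Real.rpow_mul (by linarith)]
            congr 2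
            ring
        _ ≤ _ := mul_le_mul_of_nonneg_left (Real.rpow_le_rpow_of_exponent_le hv1 hκ) (by positivity)
    apply hav t (Or.inl ht)
    have h5 : |t - G v| ≤ |x - G v| + |x - t| := by
      have : t - G v = (x - G v) - (x - t) := by ring
      rw [this]
      exact abs_sub _ _
    linarith

end Pool.Agent.Zk38.Int
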